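import Mathlib

/-!
# Arcs of the circle, and averaging over rotations
-/

open MeasureTheory Set

namespace SepDist

/-- The measure on the angles. -/
noncomputable def ang : Measure ℝ := volume.restrict (Ioc (-Real.pi) Real.pi)

lemma ang_univ : ang univ = ENNReal.ofReal (2 * Real.pi) := by
  unfold ang
  rw [Measure.restrict_apply_univ, Real.volume_Ioc]
  congr 1
  ring

instance : IsFiniteMeasure ang := ⟨by rw [ang_univ]; exact ENNReal.ofReal_lt_top⟩

/-- The unit vector with angle `φ`. -/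
noncomputable def ex (φ : ℝ) : ℂ := Complex.exp (Complex.I * φ)

lemma norm_ex (φ : ℝ) : ‖ex φ‖ = 1 := by
  unfold ex
  rw [mul_comm]
  exact Complex.norm_exp_ofReal_mul_I φ

lemma continuous_ex : Continuous ex := by
  unfold ex
  fun_prop

lemma norm_ex_sub (φ ψ : ℝ) : ‖ex φ - ex ψ‖ = 2 * |Real.sin ((φ - ψ) / 2)| := by
  have e : ex φ - ex ψ = ex ψ * (Complex.exp (Complex.I * ((φ - ψ : ℝ) : ℂ)) - 1) := by
    unfold ex
    rw [mul_sub, ← Complex.exp_add, mul_one]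
    congr 2
    push_cast
    ring
  rw [e, norm_mul, norm_ex, one_mul, Complex.norm_exp_I_mul_ofReal_sub_one, Real.norm_eq_abs,
    abs_mul, abs_of_pos (by norm_num : (0 : ℝ) < 2)]

lemma norm_ex_sub_le (φ ψ : ℝ) : ‖ex φ - ex ψ‖ ≤ |φ - ψ| := by
  rw [norm_ex_sub]
  have h : |Real.sin ((φ - ψ) / 2)| ≤ |(φ - ψ) / 2| := Real.abs_sin_le_abs
  rw [abs_div, abs_of_pos (by norm_num : (0 : ℝ) < 2)] at h
  linarith

lemma exists_angle {b : ℂ} (hb : ‖b‖ = 1) : ∃ ψ ∈ Ioc (-Real.pi) Real.pi, b = ex ψ := by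
  refine ⟨Complex.arg b, Complex.arg_mem_Ioc b, ?_⟩
  unfold ex
  have := Complex.norm_mul_exp_arg_mul_I b
  rw [hb, Complex.ofReal_one, one_mul] at this
  rw [mul_comm, this]

lemma measurableSet_arc (b : ℂ) (ρ : ℝ) : MeasurableSet {φ : ℝ | ‖ex φ - b‖ ≤ ρ} :=
  (isClosed_le (continuous_ex.sub continuous_const).norm continuous_const).measurableSet

lemma measurableSet_arc' (b : ℂ) (ρ : ℝ) : MeasurableSet {φ : ℝ | ‖ex φ - b‖ < ρ} :=
  (isOpen_lt (continuous_ex.sub continuous_const).norm continuous_const).measurableSet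

lemma abs_of_norm_ex_sub_le {φ ψ ρ : ℝ} (hφ : φ ∈ Ioc (-Real.pi) Real.pi)
    (hψ : ψ ∈ Ioc (-Real.pi) Real.pi) (h : ‖ex φ - ex ψ‖ ≤ ρ) :
    |φ - ψ| ≤ Real.pi / 2 * ρ ∨ |φ - (ψ + 2 * Real.pi)| ≤ Real.pi / 2 * ρ ∨
      |φ - (ψ - 2 * Real.pi)| ≤ Real.pi / 2 * ρ := by
  have hpi := Real.pi_pos
  rw [norm_ex_sub] at h
  have key : ∀ y : ℝ, 0 ≤ y → y ≤ Real.pi / 2 → 2 * Real.sin y ≤ ρ → 2 * y ≤ Real.pi / 2 * ρ := by
    intro y hy0 hy1 hy2
    have h1 := Real.mul_le_sin hy0 hy1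
    rw [div_mul_eq_mul_div, div_le_iff₀ hpi] at h1
    nlinarith
  obtain ⟨hφ1, hφ2⟩ := hφ
  obtain ⟨hψ1, hψ2⟩ := hψ
  rcases le_total 0 (φ - ψ) with hx | hx
  · have hs : 0 ≤ Real.sin ((φ - ψ) / 2) :=
      Real.sin_nonneg_of_nonneg_of_le_pi (by linarith) (by linarith)
    rw [abs_of_nonneg hs] at h
    rcases le_total ((φ - ψ) / 2) (Real.pi / 2) with hy | hy
    · left
      have := key _ (by linarith) hy h
      rw [abs_of_nonneg hx]
      linarith
    · right; left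
      rw [← Real.sin_pi_sub] at h
      have := key _ (by linarith) (by linarith) h
      rw [abs_of_nonpos (by linarith)]
      linarith
  · have e : Real.sin ((φ - ψ) / 2) = - Real.sin ((ψ - φ) / 2) := by
      rw [← Real.sin_neg]; congr 1; ring
    have hs : 0 ≤ Real.sin ((ψ - φ) / 2) :=
      Real.sin_nonneg_of_nonneg_of_le_pi (by linarith) (by linarith)
    rw [e, abs_neg, abs_of_nonneg hs] at h
    rcases le_total ((ψ - φ) / 2) (Real.pi / 2) with hy | hy
    · left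
      have := key _ (by linarith) hy h
      rw [abs_of_nonpos hx]
      linarith
    · right; right
      rw [← Real.sin_pi_sub] at h
      have := key _ (by linarith) (by linarith) h
      rw [abs_of_nonneg (by linarith)]
      linarith

/-- An arc of radius `ρ` has measure at most `3 π ρ`. -/
lemma ang_arc_le {b : ℂ} (hb : ‖b‖ = 1) {ρ : ℝ} (hρ : 0 ≤ ρ) :
    ang {φ : ℝ | ‖ex φ - b‖ ≤ ρ} ≤ ENNReal.ofReal (3 * Real.pi * ρ) := by
  have hpi := Real.pi_pos
  obtain ⟨ψ, hψ, rfl⟩ := exists_angle hb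
  unfold ang
  rw [Measure.restrict_apply (measurableSet_arc _ _)]
  have hsub : {φ : ℝ | ‖ex φ - ex ψ‖ ≤ ρ} ∩ Ioc (-Real.pi) Real.pi ⊆
      Metric.closedBall ψ (Real.pi / 2 * ρ) ∪ (Metric.closedBall (ψ + 2 * Real.pi) (Real.pi / 2 * ρ) ∪
        Metric.closedBall (ψ - 2 * Real.pi) (Real.pi / 2 * ρ)) := by
    rintro φ ⟨h1, h2⟩
    exact abs_of_norm_ex_sub_le h2 hψ h1
  refine (measure_mono hsub).trans ((measure_union_le _ _).trans ?_)
  refine (add_le_add le_rfl (measure_union_le _ _)).trans ?_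
  rw [Real.volume_closedBall, Real.volume_closedBall, Real.volume_closedBall,
    ← ENNReal.ofReal_add (by positivity) (by positivity),
    ← ENNReal.ofReal_add (by positivity) (by positivity)]
  refine ENNReal.ofReal_le_ofReal (le_of_eq ?_)
  ring

/-- An arc of radius `ρ ≤ 1` has measure at least `ρ`. -/
lemma le_ang_arc {b : ℂ} (hb : ‖b‖ = 1) {ρ : ℝ} (hρ : ρ ≤ 1) :
    ENNReal.ofReal ρ ≤ ang {φ : ℝ | ‖ex φ - b‖ < ρ} := by
  have hpi := Real.pi_gt_three
  obtain ⟨ψ, ⟨hψ1, hψ2⟩, rfl⟩ := exists_angle hb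
  unfold ang
  rw [Measure.restrict_apply (measurableSet_arc' _ _)]
  rcases le_or_gt 0 ψ with h | h
  · have hsub : Ioo (ψ - ρ) ψ ⊆ {φ : ℝ | ‖ex φ - ex ψ‖ < ρ} ∩ Ioc (-Real.pi) Real.pi := by
      rintro φ ⟨h1, h2⟩
      refine ⟨lt_of_le_of_lt (norm_ex_sub_le φ ψ) ?_, by linarith, by linarith⟩
      rw [abs_of_nonpos (by linarith)]
      linarith
    refine le_trans (le_of_eq ?_) (measure_mono hsub)
    rw [Real.volume_Ioo]
    congr 1
    ring
  · have hsub : Ioo ψ (ψ + ρ) ⊆ {φ : ℝ | ‖ex φ - ex ψ‖ < ρ} ∩ Ioc (-Real.pi) Real.pi := by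
      rintro φ ⟨h1, h2⟩
      refine ⟨lt_of_le_of_lt (norm_ex_sub_le φ ψ) ?_, by linarith, by linarith⟩
      rw [abs_of_nonneg (by linarith)]
      linarith
    refine le_trans (le_of_eq ?_) (measure_mono hsub)
    rw [Real.volume_Ioo]
    congr 1
    ring

/-- If every angle lies in at least `N` of the arcs then the sum of the radii is large. -/
lemma sum_radius_ge {ι : Type*} (I : Finset ι) (b : ι → ℂ) (ρ : ι → ℝ) (hb : ∀ i ∈ I, ‖b i‖ = 1)
    (hρ : ∀ i ∈ I, 0 ≤ ρ i) {N : ℝ} (hN : 0 ≤ N)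
    (h : ∀ φ : ℝ, N ≤ ((I.filter fun i => ‖ex φ - b i‖ ≤ ρ i).card : ℝ)) :
    2 * N ≤ 3 * ∑ i ∈ I, ρ i := by
  classical
  have hpi := Real.pi_pos
  have h1 : ENNReal.ofReal N * ang univ ≤ ∑ i ∈ I, ang {φ : ℝ | ‖ex φ - b i‖ ≤ ρ i} := by
    calc ENNReal.ofReal N * ang univ = ∫⁻ _, ENNReal.ofReal N ∂ang := by rw [lintegral_const]
      _ ≤ ∫⁻ φ, ∑ i ∈ I, ({φ : ℝ | ‖ex φ - b i‖ ≤ ρ i}.indicator 1 φ : ENNReal) ∂ang := by
          refine lintegral_mono fun φ => ?_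
          have h2 : ∑ i ∈ I, ({φ : ℝ | ‖ex φ - b i‖ ≤ ρ i}.indicator 1 φ : ENNReal) =
              ((I.filter fun i => ‖ex φ - b i‖ ≤ ρ i).card : ENNReal) := by
            rw [Finset.card_filter]
            push_cast
            refine Finset.sum_congr rfl fun i _ => ?_
            rw [indicator_apply]
            simp only [mem_ofPred_eq, Pi.one_apply]
          rw [h2, ← ENNReal.ofReal_natCast]
          exact ENNReal.ofReal_le_ofReal (h φ)
      _ = ∑ i ∈ I, ang {φ : ℝ | ‖ex φ - b i‖ ≤ ρ i} := by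
          rw [lintegral_finsetSum]
          · refine Finset.sum_congr rfl fun i _ => ?_
            rw [lintegral_indicator_one (measurableSet_arc _ _)]
          · intro i _
            exact (measurable_one.indicator (measurableSet_arc _ _))
  have h2 : ∑ i ∈ I, ang {φ : ℝ | ‖ex φ - b i‖ ≤ ρ i} ≤
      ENNReal.ofReal (∑ i ∈ I, 3 * Real.pi * ρ i) := by
    rw [ENNReal.ofReal_sum_of_nonneg fun i hi => by have := hρ i hi; positivity]
    exact Finset.sum_le_sum fun i hi => ang_arc_le (hb i hi) (hρ i hi)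
  have h3 := h1.trans h2
  have hs : 0 ≤ ∑ i ∈ I, 3 * Real.pi * ρ i :=
    Finset.sum_nonneg fun i hi => by have := hρ i hi; positivity
  rw [ang_univ, ← ENNReal.ofReal_mul hN, ENNReal.ofReal_le_ofReal_iff hs, ← Finset.mul_sum] at h3
  have h4 : Real.pi * (2 * N) ≤ Real.pi * (3 * ∑ i ∈ I, ρ i) := by linarith
  exact le_of_mul_le_mul_left h4 hpi

/-- If every angle lies in at most `N` of the arcs then the sum of the radii is small. -/
lemma sum_radius_le {ι : Type*} (I : Finset ι) (b : ι → ℂ) (ρ : ι → ℝ) (hb : ∀ i ∈ I, ‖b i‖ = 1)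
    (hρ : ∀ i ∈ I, 0 ≤ ρ i) (hρ1 : ∀ i ∈ I, ρ i ≤ 1) {N : ℝ} (hN : 0 ≤ N)
    (h : ∀ φ : ℝ, ((I.filter fun i => ‖ex φ - b i‖ < ρ i).card : ℝ) ≤ N) :
    ∑ i ∈ I, ρ i ≤ 2 * Real.pi * N := by
  classical
  have hpi := Real.pi_pos
  have h1 : ∑ i ∈ I, ang {φ : ℝ | ‖ex φ - b i‖ < ρ i} ≤ ENNReal.ofReal N * ang univ := by
    calc ∑ i ∈ I, ang {φ : ℝ | ‖ex φ - b i‖ < ρ i}
        = ∫⁻ φ, ∑ i ∈ I, ({φ : ℝ | ‖ex φ - b i‖ < ρ i}.indicator 1 φ : ENNReal) ∂ang := by
          rw [lintegral_finsetSum]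
          · refine Finset.sum_congr rfl fun i _ => ?_
            rw [lintegral_indicator_one (measurableSet_arc' _ _)]
          · intro i _
            exact (measurable_one.indicator (measurableSet_arc' _ _))
      _ ≤ ∫⁻ _, ENNReal.ofReal N ∂ang := by
          refine lintegral_mono fun φ => ?_
          have h2 : ∑ i ∈ I, ({φ : ℝ | ‖ex φ - b i‖ < ρ i}.indicator 1 φ : ENNReal) =
              ((I.filter fun i => ‖ex φ - b i‖ < ρ i).card : ENNReal) := by
            rw [Finset.card_filter]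
            push_cast
            refine Finset.sum_congr rfl fun i _ => ?_
            rw [indicator_apply]
            simp only [mem_ofPred_eq, Pi.one_apply]
          rw [h2, ← ENNReal.ofReal_natCast]
          exact ENNReal.ofReal_le_ofReal (h φ)
      _ = ENNReal.ofReal N * ang univ := by rw [lintegral_const]
  have h2 : ENNReal.ofReal (∑ i ∈ I, ρ i) ≤ ∑ i ∈ I, ang {φ : ℝ | ‖ex φ - b i‖ < ρ i} := by
    rw [ENNReal.ofReal_sum_of_nonneg hρ]
    exact Finset.sum_le_sum fun i hi => le_ang_arc (hb i hi) (hρ1 i hi)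
  have h3 := h2.trans h1
  rw [ang_univ, ← ENNReal.ofReal_mul hN, ENNReal.ofReal_le_ofReal_iff (by positivity)] at h3
  linarith

end SepDist
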