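import Mathlib

/-!
# Cliques of almost rigid motions in distance-separated sets

For finite sets `B ⊆ A` in the plane, a rotation `a` (a complex number of modulus one) and
`p ∈ B`, `r ∈ A` the clique consists of the pairs `(q, q') ∈ B × A` with
`|q' - r - a (q - p)| < τ`. If `A` is distance-separated it is a partial isometry. If it is not contained in a strip of width `τ`, it is
a rotation followed by a translation.
-/

open Finset ComplexConjugate

namespace SepDist

/-- Distinct distances of `A` (the distance zero included) differ by at least one. -/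
def Separated (A : Finset ℂ) : Prop :=
  ∀ p₁ ∈ A, ∀ q₁ ∈ A, ∀ p₂ ∈ A, ∀ q₂ ∈ A, dist p₁ q₁ ≠ dist p₂ q₂ →
    1 ≤ |dist p₁ q₁ - dist p₂ q₂|

lemma Separated.eq_of_lt {A : Finset ℂ} (h : Separated A) {p₁ q₁ p₂ q₂ : ℂ} (h1 : p₁ ∈ A)
    (h2 : q₁ ∈ A) (h3 : p₂ ∈ A) (h4 : q₂ ∈ A) (hlt : |dist p₁ q₁ - dist p₂ q₂| < 1) :
    dist p₁ q₁ = dist p₂ q₂ := by
  by_contra hne
  exact absurd (h p₁ h1 q₁ h2 p₂ h3 q₂ h4 hne) (not_le.2 hlt)

lemma Separated.one_le {A : Finset ℂ} (h : Separated A) {p q : ℂ} (h1 : p ∈ A) (h2 : q ∈ A)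
    (hne : p ≠ q) : 1 ≤ ‖q - p‖ := by
  have h3 := h p h1 q h2 p h1 p h1 (by rw [dist_self]; exact dist_ne_zero.2 hne)
  rw [dist_self, sub_zero, abs_of_nonneg dist_nonneg, dist_comm, dist_eq_norm] at h3
  exact h3

/-- The clique of `(p, r)` for the rotation `a`. -/
noncomputable def clique (B A : Finset ℂ) (τ : ℝ) (p r a : ℂ) : Finset (ℂ × ℂ) :=
  (B ×ˢ A).filter fun x => ‖x.2 - r - a * (x.1 - p)‖ < τ

lemma mem_clique {B A : Finset ℂ} {τ : ℝ} {p r a : ℂ} {x : ℂ × ℂ} :
    x ∈ clique B A τ p r a ↔ (x.1 ∈ B ∧ x.2 ∈ A) ∧ ‖x.2 - r - a * (x.1 - p)‖ < τ := by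
  unfold clique
  rw [mem_filter, mem_product]

lemma clique_isometry {B A : Finset ℂ} (hA : Separated A) (hB : B ⊆ A) {τ : ℝ} (hτ : τ ≤ 1 / 2) {p r a : ℂ}
    (ha : ‖a‖ = 1) {x y : ℂ × ℂ} (hx : x ∈ clique B A τ p r a) (hy : y ∈ clique B A τ p r a) :
    ‖x.1 - y.1‖ = ‖x.2 - y.2‖ := by
  rw [mem_clique] at hx hy
  rw [← dist_eq_norm, ← dist_eq_norm]
  refine hA.eq_of_lt (hB hx.1.1) (hB hy.1.1) hx.1.2 hy.1.2 ?_
  have e : x.2 - y.2 = a * (x.1 - y.1) + ((x.2 - r - a * (x.1 - p)) - (y.2 - r - a * (y.1 - p))) := by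
    ring
  have h1 : ‖(x.2 - r - a * (x.1 - p)) - (y.2 - r - a * (y.1 - p))‖ < 1 :=
    lt_of_le_of_lt (norm_sub_le _ _) (by linarith [hx.2, hy.2])
  rw [dist_eq_norm, dist_eq_norm, e, abs_lt]
  have h2 := norm_add_le (a * (x.1 - y.1))
    ((x.2 - r - a * (x.1 - p)) - (y.2 - r - a * (y.1 - p)))
  have h3 := norm_sub_norm_le (a * (x.1 - y.1))
    (-((x.2 - r - a * (x.1 - p)) - (y.2 - r - a * (y.1 - p))))
  rw [sub_neg_eq_add, norm_neg] at h3
  rw [norm_mul, ha, one_mul] at h2 h3
  constructor <;> linarith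

lemma clique_fst_injOn {B A : Finset ℂ} (hA : Separated A) (hB : B ⊆ A) {τ : ℝ} (hτ : τ ≤ 1 / 2) {p r a : ℂ}
    (ha : ‖a‖ = 1) : Set.InjOn Prod.fst (clique B A τ p r a : Set (ℂ × ℂ)) := by
  intro x hx y hy h
  have h1 := clique_isometry hA hB hτ ha hx hy
  have h' : x.1 = y.1 := h
  rw [h', sub_self, norm_zero] at h1
  exact Prod.ext h' (sub_eq_zero.1 (norm_eq_zero.1 h1.symm))

/-- The alternative between rotations and reflections. -/
lemma rot_or_refl {u v b c : ℂ} (hb : ‖b‖ = 1) (hc : ‖c‖ = 1) (hu : u ≠ 0) (hv : v ≠ 0)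
    (h : ‖u - v‖ = ‖b * u - c * v‖) : b = c ∨ b * u * conj v = c * v * conj u := by
  have hn : ∀ z w : ℂ, ‖z - w‖ ^ 2 = ‖z‖ ^ 2 + ‖w‖ ^ 2 - 2 * (z * conj w).re := fun z w => by
    rw [Complex.sq_norm, Complex.sq_norm, Complex.sq_norm, Complex.normSq_sub]
  have h1 : (u * conj v).re = (b * u * conj (c * v)).re := by
    have e1 := hn u v
    have e2 := hn (b * u) (c * v)
    rw [← h, norm_mul, norm_mul, hb, hc, one_mul, one_mul] at e2
    linarith
  set z := u * conj v with hz
  have hzne : z ≠ 0 := mul_ne_zero hu ((map_ne_zero _).2 hv)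
  set w := b * conj c with hw
  have e3 : b * u * conj (c * v) = w * z := by rw [hw, hz, map_mul]; ring
  rw [e3] at h1
  have hwn : ‖w‖ = 1 := by rw [hw, norm_mul, RCLike.norm_conj, hb, hc, one_mul]
  have h2 : (w * z).im ^ 2 = z.im ^ 2 := by
    have e4 : ‖w * z‖ ^ 2 = ‖z‖ ^ 2 := by rw [norm_mul, hwn, one_mul]
    rw [Complex.sq_norm, Complex.sq_norm, Complex.normSq_apply, Complex.normSq_apply, ← h1] at e4
    nlinarith
  have hcc : conj c * c = 1 := by
    rw [← Complex.normSq_eq_conj_mul_self, Complex.normSq_eq_norm_sq, hc]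
    norm_num
  rcases sq_eq_sq_iff_eq_or_eq_neg.1 h2 with h3 | h3
  · left
    have h4 : w * z = z := Complex.ext h1.symm h3
    have h5 : w = 1 := mul_right_cancel₀ hzne (by rw [h4, one_mul])
    calc b = b * (conj c * c) := by rw [hcc, mul_one]
      _ = w * c := by rw [hw]; ring
      _ = c := by rw [h5, one_mul]
  · right
    have h4 : w * z = conj z := by
      apply Complex.ext
      · rw [Complex.conj_re]; exact h1.symm
      · rw [Complex.conj_im]; exact h3
    have h5 : c * (w * z) = c * conj z := by rw [h4]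
    rw [hz, map_mul, Complex.conj_conj, hw] at h5
    calc b * u * conj v = c * (b * conj c * (u * conj v)) := by
          calc b * u * conj v = (conj c * c) * (b * u * conj v) := by rw [hcc, one_mul]
            _ = _ := by ring
      _ = c * (conj u * v) := h5
      _ = c * v * conj u := by ring

/-- If `|λ \bar s - a s| < τ` then `s` lies in a strip. -/
lemma exists_dir {l a : ℂ} (hl : ‖l‖ = 1) (ha : ‖a‖ = 1) : ∃ g : ℂ, ‖g‖ = 1 ∧
    ∀ s : ℂ, ‖l * conj s - a * s‖ = 2 * |(conj g * s).im| := by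
  obtain ⟨g, hg⟩ := IsAlgClosed.exists_pow_nat_eq (l * conj a) (n := 2) (by norm_num)
  have hgn : ‖g‖ = 1 := by
    have h1 : ‖g‖ ^ 2 = 1 := by
      rw [← norm_pow, hg, norm_mul, RCLike.norm_conj, hl, ha, one_mul]
    nlinarith [norm_nonneg g]
  refine ⟨g, hgn, fun s => ?_⟩
  have hgg : conj g * g = 1 := by
    rw [← Complex.normSq_eq_conj_mul_self, Complex.normSq_eq_norm_sq, hgn]
    norm_num
  have haa : conj a * a = 1 := by
    rw [← Complex.normSq_eq_conj_mul_self, Complex.normSq_eq_norm_sq, ha]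
    norm_num
  have e1 : l * conj s - a * s = a * g * (conj (conj g * s) - conj g * s) := by
    have e2 : l = a * g ^ 2 := by
      rw [hg]
      calc l = l * (conj a * a) := by rw [haa, mul_one]
        _ = _ := by ring
    rw [map_mul, Complex.conj_conj]
    calc l * conj s - a * s = a * g ^ 2 * conj s - a * (conj g * g) * s := by rw [hgg, ← e2, mul_one]
      _ = _ := by ring
  rw [e1, norm_mul, norm_mul, ha, hgn, one_mul, one_mul, ← neg_sub, norm_neg, Complex.sub_conj,
    norm_mul, Complex.norm_I, mul_one, Complex.norm_real, Real.norm_eq_abs, abs_mul]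
  norm_num

/-- **Rigidity.** A clique which is not contained in a strip of width `τ` is a proper motion. -/
theorem clique_rigid {B A : Finset ℂ} (hA : Separated A) (hB : B ⊆ A) {τ : ℝ} (hτ : τ ≤ 1 / 2) {p r a : ℂ}
    (ha : ‖a‖ = 1) (hp : (p, r) ∈ clique B A τ p r a)
    (hstrip : ∀ g : ℂ, ‖g‖ = 1 → ∃ x ∈ clique B A τ p r a, τ / 2 ≤ |(conj g * (x.1 - p)).im|) :
    ∃ b : ℂ, ‖b‖ = 1 ∧ ∀ x ∈ clique B A τ p r a, x.2 - r = b * (x.1 - p) := by
  classical
  -- the rotation of a pair
  have hrot : ∀ x ∈ clique B A τ p r a, x.1 - p ≠ 0 → ‖(x.2 - r) / (x.1 - p)‖ = 1 ∧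
      x.2 - r = (x.2 - r) / (x.1 - p) * (x.1 - p) := by
    intro x hx hne
    refine ⟨?_, (div_mul_cancel₀ _ hne).symm⟩
    have := clique_isometry hA hB hτ ha hx hp
    rw [norm_div, ← this, div_self (norm_ne_zero_iff.2 hne)]
  have hτ0 : 0 < τ := by
    rw [mem_clique] at hp
    exact lt_of_le_of_lt (norm_nonneg _) hp.2
  -- a nontrivial pair
  obtain ⟨x0, hx0, hx0'⟩ := hstrip 1 norm_one
  have hne0 : x0.1 - p ≠ 0 := by
    intro h
    rw [h, mul_zero, Complex.zero_im, abs_zero] at hx0'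
    linarith
  by_cases hall : ∀ x ∈ clique B A τ p r a, x.1 - p ≠ 0 →
      (x.2 - r) / (x.1 - p) = (x0.2 - r) / (x0.1 - p)
  · refine ⟨(x0.2 - r) / (x0.1 - p), (hrot x0 hx0 hne0).1, fun x hx => ?_⟩
    by_cases hx1 : x.1 - p = 0
    · have := clique_isometry hA hB hτ ha hx hp
      simp only at this
      rw [hx1, norm_zero] at this
      rw [hx1, mul_zero]
      exact norm_eq_zero.1 this.symm
    · rw [← hall x hx hx1]
      exact (hrot x hx hx1).2
  · exfalso
    push Not at hall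
    obtain ⟨y, hy, hy1, hyne⟩ := hall
    set u := x0.1 - p with hu
    set v := y.1 - p with hv
    set b := (x0.2 - r) / u with hb
    set c := (y.2 - r) / v with hc
    obtain ⟨hbn, hbu⟩ := hrot x0 hx0 hne0
    obtain ⟨hcn, hcv⟩ := hrot y hy hy1
    rw [← hu, ← hb] at hbn hbu
    rw [← hv, ← hc] at hcn hcv
    -- for all pairs of nontrivial elements of the clique
    have hpair : ∀ x ∈ clique B A τ p r a, ∀ y ∈ clique B A τ p r a, x.1 - p ≠ 0 → y.1 - p ≠ 0 →
        (x.2 - r) / (x.1 - p) = (y.2 - r) / (y.1 - p) ∨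
        (x.2 - r) / (x.1 - p) * (x.1 - p) * conj (y.1 - p) =
          (y.2 - r) / (y.1 - p) * (y.1 - p) * conj (x.1 - p) := by
      intro x hx y hy hx1 hy1
      refine rot_or_refl (hrot x hx hx1).1 (hrot y hy hy1).1 hx1 hy1 ?_
      rw [← (hrot x hx hx1).2, ← (hrot y hy hy1).2, sub_sub_sub_cancel_right,
        sub_sub_sub_cancel_right]
      exact clique_isometry hA hB hτ ha hx hy
    have hcu : conj u ≠ 0 := (map_ne_zero _).2 hne0
    have hcv' : conj v ≠ 0 := (map_ne_zero _).2 hy1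
    set l := b * u / conj u with hl
    have hln : ‖l‖ = 1 := by
      rw [hl, norm_div, norm_mul, hbn, one_mul, RCLike.norm_conj,
        div_self (norm_ne_zero_iff.2 hne0)]
    have hlv : l = c * v / conj v := by
      rcases hpair x0 hx0 y hy hne0 hy1 with h | h
      · exact absurd h.symm hyne
      · rw [hl, div_eq_div_iff hcu hcv']
        exact h
    -- every element of the clique is reflected
    have hall : ∀ x ∈ clique B A τ p r a, x.2 - r = l * conj (x.1 - p) := by
      intro x hx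
      by_cases hx1 : x.1 - p = 0
      · have := clique_isometry hA hB hτ ha hx hp
        simp only at this
        rw [hx1, norm_zero] at this
        rw [hx1, map_zero, mul_zero]
        exact norm_eq_zero.1 this.symm
      · have hs := (hrot x hx hx1).2
        set s := x.1 - p with hs'
        set d := (x.2 - r) / s with hd
        have hfin : ∀ {b' u' : ℂ}, conj u' ≠ 0 → l = b' * u' / conj u' →
            b' * u' * conj s = d * s * conj u' → x.2 - r = l * conj s := by
          intro b' u' hu' hl' h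
          refine hs.trans (Eq.symm ?_)
          rw [hl', div_mul_eq_mul_div, div_eq_iff hu']
          exact h
        rcases hpair x0 hx0 x hx hne0 hx1 with h | h
        · rcases hpair y hy x hx hy1 hx1 with h' | h'
          · exact absurd (h'.trans h.symm) hyne
          · exact hfin hcv' hlv h'
        · exact hfin hcu hl h
    obtain ⟨g, hg, hgs⟩ := exists_dir hln ha
    obtain ⟨x, hx, hx'⟩ := hstrip g hg
    have h1 := hgs (x.1 - p)
    rw [← hall x hx] at h1
    rw [mem_clique] at hx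
    linarith [hx.2]

end SepDist
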