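import Mathlib

/-!
# A packing lemma for nearest neighbours in the plane

For a finite set `S` in the plane and `k ≥ 2` let `f_k(p)` be the radius of the smallest closed
disc around `p` containing `k` points of `S` (`p` included). Then
`∑ 1 / f_m(p) ≤ 256 √(j / m) ∑ 1 / f_j(p)` for `2 ≤ j ≤ m`.
-/

open Finset

namespace SepDist

/-- The number of points of `S` in the closed disc of radius `r` around `p`. -/
noncomputable def cnt (S : Finset ℂ) (p : ℂ) (r : ℝ) : ℕ := (S.filter fun q => ‖q - p‖ ≤ r).card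

/-- The distance from `p` to its `k`-th nearest point of `S` (`p` itself is the first one);
zero if `S` has fewer than `k` points. -/
noncomputable def nn (S : Finset ℂ) (k : ℕ) (p : ℂ) : ℝ := sInf {r : ℝ | 0 ≤ r ∧ k ≤ cnt S p r}

lemma cnt_mono (S : Finset ℂ) (p : ℂ) {r r' : ℝ} (h : r ≤ r') : cnt S p r ≤ cnt S p r' := by
  unfold cnt
  refine card_le_card fun q hq => ?_
  rw [mem_filter] at hq ⊢
  exact ⟨hq.1, hq.2.trans h⟩

lemma cnt_le_card (S : Finset ℂ) (p : ℂ) (r : ℝ) : cnt S p r ≤ S.card :=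
  card_le_card (filter_subset _ _)

lemma nn_nonneg (S : Finset ℂ) (k : ℕ) (p : ℂ) : 0 ≤ nn S k p :=
  Real.sInf_nonneg fun _ hr => hr.1

lemma nn_bddBelow (S : Finset ℂ) (k : ℕ) (p : ℂ) :
    BddBelow {r : ℝ | 0 ≤ r ∧ k ≤ cnt S p r} := ⟨0, fun _ hr => hr.1⟩

lemma nn_le {S : Finset ℂ} {k : ℕ} {p : ℂ} {r : ℝ} (hr : 0 ≤ r) (h : k ≤ cnt S p r) :
    nn S k p ≤ r := csInf_le (nn_bddBelow S k p) ⟨hr, h⟩

lemma nn_eq_zero {S : Finset ℂ} {k : ℕ} {p : ℂ} (h : S.card < k) : nn S k p = 0 := by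
  have : {r : ℝ | 0 ≤ r ∧ k ≤ cnt S p r} = ∅ := by
    ext r
    simp only [Set.mem_ofPred_eq, Set.mem_empty_iff_false, iff_false, not_and, not_le]
    intro _
    exact lt_of_le_of_lt (cnt_le_card S p r) h
  unfold nn
  rw [this, Real.sInf_empty]

/-- The infimum is attained. -/
lemma le_cnt_nn {S : Finset ℂ} {k : ℕ} (p : ℂ) (h : k ≤ S.card) : k ≤ cnt S p (nn S k p) := by
  by_contra hlt
  push Not at hlt
  -- the distances larger than `nn`
  set r := nn S k p with hr
  set T := S.filter fun q => r < ‖q - p‖ with hT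
  have hTne : T.Nonempty := by
    by_contra hne
    rw [not_nonempty_iff_eq_empty] at hne
    have : S.filter (fun q => ‖q - p‖ ≤ r) = S := by
      refine filter_true_of_mem fun q hq => ?_
      by_contra hq'
      push Not at hq'
      have : q ∈ T := by rw [hT, mem_filter]; exact ⟨hq, hq'⟩
      rw [hne] at this
      simp at this
    unfold cnt at hlt
    rw [this] at hlt
    omega
  obtain ⟨q0, hq0, hmin⟩ := exists_min_image T (fun q => ‖q - p‖) hTne
  have hq0' : r < ‖q0 - p‖ := by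
    rw [hT, mem_filter] at hq0
    exact hq0.2
  have hne : {r : ℝ | 0 ≤ r ∧ k ≤ cnt S p r}.Nonempty := by
    by_contra he
    rw [Set.not_nonempty_iff_eq_empty] at he
    obtain ⟨R, hR⟩ : ∃ R : ℝ, ∀ q ∈ S, ‖q - p‖ ≤ R := by
      refine ⟨∑ q ∈ S, ‖q - p‖, fun q hq => ?_⟩
      exact single_le_sum (f := fun q => ‖q - p‖) (fun _ _ => norm_nonneg _) hq
    have : max R 0 ∈ {r : ℝ | 0 ≤ r ∧ k ≤ cnt S p r} := by
      refine ⟨le_max_right _ _, ?_⟩
      unfold cnt
      rw [filter_true_of_mem fun q hq => (hR q hq).trans (le_max_left _ _)]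
      exact h
    rw [he] at this
    exact this
  obtain ⟨r', hr', hlt'⟩ := exists_lt_of_csInf_lt hne (lt_of_le_of_lt (le_of_eq rfl) hq0')
  have : cnt S p r' = cnt S p r := by
    unfold cnt
    congr 1
    ext q
    rw [mem_filter, mem_filter]
    refine and_congr_right fun hq => ⟨fun hh => ?_, fun hh => ?_⟩
    · by_contra hc
      push Not at hc
      have : q ∈ T := by rw [hT, mem_filter]; exact ⟨hq, hc⟩
      have := hmin q this
      linarith
    · exact hh.trans (csInf_le (nn_bddBelow S k p) hr')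
  have := hr'.2
  omega

lemma nn_pos {S : Finset ℂ} {k : ℕ} {p : ℂ} (hk : 2 ≤ k) (h : k ≤ S.card) : 0 < nn S k p := by
  rcases (nn_nonneg S k p).lt_or_eq with h0 | h0
  · exact h0
  · exfalso
    have h1 := le_cnt_nn p h
    rw [← h0] at h1
    unfold cnt at h1
    have : (S.filter fun q => ‖q - p‖ ≤ 0) ⊆ {p} := by
      intro q hq
      rw [mem_filter] at hq
      rw [mem_singleton]
      have := norm_le_zero_iff.1 hq.2
      exact sub_eq_zero.1 this
    have := card_le_card this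
    rw [card_singleton] at this
    omega

/-- Fewer than `k` points are strictly closer than `nn`. -/
lemma card_lt_of_le_nn {S : Finset ℂ} {k : ℕ} {p : ℂ} {r : ℝ} (hr : r ≤ nn S k p) (hk : 1 ≤ k) :
    (S.filter fun q => ‖q - p‖ < r).card < k := by
  by_contra hge
  push Not at hge
  set T := S.filter fun q => ‖q - p‖ < r with hT
  have hTne : T.Nonempty := card_pos.1 (by omega)
  obtain ⟨q0, hq0, hmax⟩ := exists_max_image T (fun q => ‖q - p‖) hTne
  have hq0' : ‖q0 - p‖ < r := by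
    rw [hT, mem_filter] at hq0
    exact hq0.2
  have : k ≤ cnt S p ‖q0 - p‖ := by
    refine hge.trans ?_
    unfold cnt
    refine card_le_card fun q hq => ?_
    have h1 := hmax q hq
    rw [hT, mem_filter] at hq
    rw [mem_filter]
    exact ⟨hq.1, h1⟩
  have := nn_le (norm_nonneg _) this
  linarith

lemma nn_mono {S : Finset ℂ} {j m : ℕ} {p : ℂ} (hjm : j ≤ m) (hm : m ≤ S.card) :
    nn S j p ≤ nn S m p :=
  nn_le (nn_nonneg _ _ _) (hjm.trans (le_cnt_nn p hm))

/-! ### The in-degree of the nearest neighbour relation -/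

/-- The octant of a complex number. -/
noncomputable def oct (z : ℂ) : Bool × Bool × Bool :=
  (decide (0 ≤ z.re), decide (0 ≤ z.im), decide (|z.im| ≤ |z.re|))

/-- Two points in the same octant, the one further from the origin is closer to the other point
than to the origin. -/
lemma norm_sub_lt_of_oct {u v : ℂ} (h : oct u = oct v) (hu : u ≠ 0) (huv : ‖u‖ ≤ ‖v‖) :
    ‖u - v‖ < ‖v‖ := by
  unfold oct at h
  simp only [Prod.mk.injEq, decide_eq_decide] at h
  obtain ⟨h1, h2, h3⟩ := h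
  have hn : ∀ z : ℂ, ‖z‖ ^ 2 = z.re ^ 2 + z.im ^ 2 := fun z => by
    rw [Complex.sq_norm, Complex.normSq_apply]; ring
  have hre : u.re * v.re = |u.re| * |v.re| := by
    rw [← abs_mul, abs_of_nonneg]
    rcases le_or_gt 0 u.re with h | h
    · exact mul_nonneg h (h1.1 h)
    · have : v.re < 0 := by
        by_contra hc
        push Not at hc
        exact absurd (h1.2 hc) (not_le.2 h)
      exact (mul_pos_of_neg_of_neg h this).le
  have him : u.im * v.im = |u.im| * |v.im| := by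
    rw [← abs_mul, abs_of_nonneg]
    rcases le_or_gt 0 u.im with h | h
    · exact mul_nonneg h (h2.1 h)
    · have : v.im < 0 := by
        by_contra hc
        push Not at hc
        exact absurd (h2.2 hc) (not_le.2 h)
      exact (mul_pos_of_neg_of_neg h this).le
  set a := |u.re|
  set b := |u.im|
  set c := |v.re|
  set d := |v.im|
  have ha : 0 ≤ a := abs_nonneg _
  have hb : 0 ≤ b := abs_nonneg _
  have hc : 0 ≤ c := abs_nonneg _
  have hd : 0 ≤ d := abs_nonneg _
  have hu2 : ‖u‖ ^ 2 = a ^ 2 + b ^ 2 := by rw [hn, sq_abs, sq_abs]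
  have hv2 : ‖v‖ ^ 2 = c ^ 2 + d ^ 2 := by rw [hn, sq_abs, sq_abs]
  have hsub : ‖u - v‖ ^ 2 = ‖u‖ ^ 2 + ‖v‖ ^ 2 - 2 * (a * c + b * d) := by
    rw [hn, hn u, hn v, Complex.sub_re, Complex.sub_im, ← hre, ← him]; ring
  -- the key inequality
  have key : (a ^ 2 + b ^ 2) * (c ^ 2 + d ^ 2) ≤ 2 * (a * c + b * d) ^ 2 := by
    have h4 : 0 ≤ (a ^ 2 - b ^ 2) * (c ^ 2 - d ^ 2) := by
      rcases le_or_gt b a with h | h
      · have h' : d ≤ c := h3.1 h
        exact mul_nonneg (by nlinarith) (by nlinarith)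
      · have h' : c < d := by
          by_contra hcd
          push Not at hcd
          exact absurd (h3.2 hcd) (not_le.2 h)
        nlinarith [mul_nonneg (show 0 ≤ b ^ 2 - a ^ 2 by nlinarith) (show 0 ≤ d ^ 2 - c ^ 2 by nlinarith)]
    nlinarith [mul_nonneg (mul_nonneg ha hc) (mul_nonneg hb hd), sq_nonneg (a * c + b * d)]
  have hupos : 0 < ‖u‖ := norm_pos_iff.2 hu
  have hip : 0 ≤ a * c + b * d := by positivity
  have h5 : ‖u‖ * ‖v‖ < 2 * (a * c + b * d) := by
    have hvpos : 0 < ‖v‖ := lt_of_lt_of_le hupos huv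
    have h6 : (‖u‖ * ‖v‖) ^ 2 ≤ 2 * (a * c + b * d) ^ 2 := by
      rw [mul_pow, hu2, hv2]; exact key
    by_contra hcon
    push Not at hcon
    have h7 : 0 < ‖u‖ * ‖v‖ := mul_pos hupos hvpos
    nlinarith
  have h8 : ‖u‖ ^ 2 ≤ ‖u‖ * ‖v‖ := by nlinarith
  have h9 : ‖u - v‖ ^ 2 < ‖v‖ ^ 2 := by rw [hsub]; linarith
  exact lt_of_pow_lt_pow_left₀ 2 (norm_nonneg _) h9

/-- The in-degree of the `m`-nearest neighbour relation is at most `8 m`. -/
lemma card_indegree_le (S : Finset ℂ) {m : ℕ} (hm : 1 ≤ m) (q : ℂ) :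
    (S.filter fun p => ‖q - p‖ ≤ nn S m p).card ≤ 8 * m := by
  classical
  set X := S.filter fun p => ‖q - p‖ ≤ nn S m p with hX
  have h1 : X ⊆ insert q (univ.biUnion fun o : Bool × Bool × Bool =>
      X.filter fun p => p ≠ q ∧ oct (p - q) = o) := by
    intro p hp
    rw [mem_insert]
    by_cases hpq : p = q
    · exact Or.inl hpq
    · right
      rw [mem_biUnion]
      exact ⟨oct (p - q), mem_univ _, by rw [mem_filter]; exact ⟨hp, hpq, rfl⟩⟩
  have h2 : ∀ o : Bool × Bool × Bool, (X.filter fun p => p ≠ q ∧ oct (p - q) = o).card ≤ m - 1 := by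
    intro o
    set Y := X.filter fun p => p ≠ q ∧ oct (p - q) = o with hY
    rcases Y.eq_empty_or_nonempty with he | hne
    · rw [he]; simp
    · obtain ⟨p0, hp0, hmax⟩ := exists_max_image Y (fun p => ‖p - q‖) hne
      have hp0' := hp0
      rw [hY, mem_filter, hX, mem_filter] at hp0'
      obtain ⟨⟨hp0S, hp0n⟩, hp0q, hp0o⟩ := hp0'
      have hlt := card_lt_of_le_nn (S := S) hp0n hm
      have hsub : Y ⊆ S.filter fun x => ‖x - p0‖ < ‖q - p0‖ := by
        intro p hp
        have hle := hmax p hp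
        rw [hY, mem_filter, hX, mem_filter] at hp
        rw [mem_filter]
        refine ⟨hp.1.1, ?_⟩
        have := norm_sub_lt_of_oct (u := p - q) (v := p0 - q) (by rw [hp.2.2, hp0o])
          (sub_ne_zero.2 hp.2.1) hle
        rw [sub_sub_sub_cancel_right] at this
        rwa [norm_sub_rev q p0]
      have := card_le_card hsub
      omega
  calc X.card ≤ _ := card_le_card h1
    _ ≤ (univ.biUnion fun o : Bool × Bool × Bool =>
      X.filter fun p => p ≠ q ∧ oct (p - q) = o).card + 1 := card_insert_le _ _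
    _ ≤ (∑ o : Bool × Bool × Bool, (X.filter fun p => p ≠ q ∧ oct (p - q) = o).card) + 1 := by
        gcongr; exact card_biUnion_le
    _ ≤ (∑ _o : Bool × Bool × Bool, (m - 1)) + 1 := by gcongr with o _; exact h2 o
    _ = 8 * (m - 1) + 1 := by rw [sum_const, card_univ]; simp
    _ ≤ 8 * m := by omega

/-! ### Most points of a disc have near neighbours -/

/-- Cells of side `s`. -/
noncomputable def cell (s : ℝ) (p q : ℂ) : ℤ × ℤ := (⌊(q - p).re / s⌋, ⌊(q - p).im / s⌋)

lemma norm_le_of_cell_eq {s : ℝ} (hs : 0 < s) {p q q' : ℂ} (h : cell s p q = cell s p q') :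
    ‖q - q'‖ ≤ 2 * s := by
  unfold cell at h
  rw [Prod.mk.injEq] at h
  have h1 := Int.abs_sub_lt_one_of_floor_eq_floor h.1
  have h2 := Int.abs_sub_lt_one_of_floor_eq_floor h.2
  rw [← sub_div, abs_div, abs_of_pos hs, div_lt_one hs] at h1 h2
  rw [← Complex.sub_re, sub_sub_sub_cancel_right] at h1
  rw [← Complex.sub_im, sub_sub_sub_cancel_right] at h2
  exact (Complex.norm_le_abs_re_add_abs_im _).trans (by linarith)

lemma cell_mem {s R : ℝ} (hs : 0 < s) {p q : ℂ} (h : ‖q - p‖ ≤ R) :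
    cell s p q ∈ (Icc (-⌈R / s⌉) ⌈R / s⌉) ×ˢ (Icc (-⌈R / s⌉) ⌈R / s⌉) := by
  have key : ∀ x : ℝ, |x| ≤ R → ⌊x / s⌋ ∈ Icc (-⌈R / s⌉) ⌈R / s⌉ := by
    intro x hx
    rw [abs_le] at hx
    rw [mem_Icc]
    have hc := Int.le_ceil (R / s)
    constructor
    · rw [Int.le_floor, le_div_iff₀ hs]
      rw [div_le_iff₀ hs] at hc
      push_cast
      nlinarith
    · rw [← @Int.cast_le ℝ]
      refine (Int.floor_le _).trans ?_
      refine le_trans ?_ hc
      rw [div_le_div_iff_of_pos_right hs]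
      exact hx.2
  unfold cell
  rw [mem_product]
  exact ⟨key _ ((Complex.abs_re_le_norm _).trans h), key _ ((Complex.abs_im_le_norm _).trans h)⟩

/-- At least half of the points of a set with `≥ m` points in a disc of radius `R` are in cells
with at least `j` points if the number of cells is at most `m / (2 j)`. -/
lemma card_rich_ge (Q : Finset ℂ) (p : ℂ) {s R : ℝ} (hs : 0 < s) (hQ : ∀ q ∈ Q, ‖q - p‖ ≤ R)
    {j m : ℕ} (hm : m ≤ Q.card) (hcell : (2 * ⌈R / s⌉ + 1) ^ 2 * (2 * j) ≤ (m : ℤ))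
    (hR : 0 ≤ R) :
    m ≤ 2 * (Q.filter fun q => j ≤ (Q.filter fun q' => cell s p q' = cell s p q).card).card := by
  classical
  set T := (Icc (-⌈R / s⌉) ⌈R / s⌉) ×ˢ (Icc (-⌈R / s⌉) ⌈R / s⌉) with hT
  have hceil : 0 ≤ ⌈R / s⌉ := Int.ceil_nonneg (div_nonneg hR hs.le)
  have hTcard : (T.card : ℤ) = (2 * ⌈R / s⌉ + 1) ^ 2 := by
    rw [hT, card_product, Int.card_Icc]
    push_cast
    rw [Int.toNat_of_nonneg (by omega)]
    ring
  set P := Q.filter fun q => ¬ j ≤ (Q.filter fun q' => cell s p q' = cell s p q).card with hP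
  have hmaps : ∀ q ∈ P, cell s p q ∈ T := by
    intro q hq
    rw [hP, mem_filter] at hq
    exact cell_mem hs (hQ q hq.1)
  have hPc : P.card ≤ T.card * j := by
    rw [mul_comm]
    refine card_le_mul_card_image_of_maps_to hmaps j fun c _ => ?_
    by_contra hcon
    push Not at hcon
    obtain ⟨q0, hq0⟩ : (P.filter fun a => cell s p a = c).Nonempty := card_pos.1 (by omega)
    rw [mem_filter, hP, mem_filter] at hq0
    apply hq0.1.2
    refine hcon.le.trans (card_le_card fun q hq => ?_)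
    rw [mem_filter, hP, mem_filter] at hq
    rw [mem_filter]
    exact ⟨hq.1.1, by rw [hq.2, hq0.2]⟩
  have hsplit := card_filter_add_card_filter_not (s := Q)
    (fun q => j ≤ (Q.filter fun q' => cell s p q' = cell s p q).card)
  have h1 : (P.card : ℤ) * 2 ≤ m := by
    have : (P.card : ℤ) ≤ T.card * j := by exact_mod_cast hPc
    rw [hTcard] at this
    linarith
  have h2 : P.card * 2 ≤ m := by exact_mod_cast h1
  rw [← hP] at hsplit
  omega

/-- Most points `q` of the disc of radius `f_m(p)` around `p` satisfy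
`f_j(q) ≤ 32 √(j/m) f_m(p)`. -/
lemma card_good_ge (S : Finset ℂ) {j m : ℕ} (hj : 2 ≤ j) (hm : 64 * j ≤ m) (hmS : m ≤ S.card)
    (p : ℂ) :
    m ≤ 2 * (S.filter fun q => ‖q - p‖ ≤ nn S m p ∧
      nn S j q ≤ 32 * Real.sqrt (j / m) * nn S m p).card := by
  have hmpos : 0 < (m : ℝ) := by
    have : 0 < m := by omega
    exact_mod_cast this
  have hjpos : 0 < (j : ℝ) := by
    have : 0 < j := by omega
    exact_mod_cast this
  set R := nn S m p with hR
  have hRpos : 0 < R := nn_pos (by omega) hmS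
  set t := Real.sqrt (j / m) with ht
  have htpos : 0 < t := Real.sqrt_pos.2 (div_pos hjpos hmpos)
  have ht2 : t ^ 2 = j / m := Real.sq_sqrt (div_nonneg hjpos.le hmpos.le)
  have hmj : 64 * (j : ℝ) ≤ m := by exact_mod_cast hm
  have ht8 : t ≤ 1 / 8 := by
    have : t ^ 2 ≤ (1 / 8) ^ 2 := by
      rw [ht2, div_le_iff₀ hmpos]
      nlinarith
    exact le_of_sq_le_sq this (by norm_num)
  set s := 16 * t * R with hs
  have hspos : 0 < s := by positivity
  have hRs : R / s = 1 / (16 * t) := by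
    rw [hs]
    field_simp
  set Q := S.filter fun q => ‖q - p‖ ≤ R with hQ
  have hQm : m ≤ Q.card := le_cnt_nn p hmS
  have hceil : (⌈R / s⌉ : ℝ) ≤ 1 / (16 * t) + 1 := by
    rw [hRs]
    exact (Int.ceil_lt_add_one _).le
  have hc0 : (0 : ℝ) ≤ ⌈R / s⌉ := by
    exact_mod_cast Int.ceil_nonneg (div_nonneg hRpos.le hspos.le)
  have hcell : (2 * ⌈R / s⌉ + 1) ^ 2 * (2 * j) ≤ (m : ℤ) := by
    have h1 : (2 * (⌈R / s⌉ : ℝ) + 1) ≤ 1 / (2 * t) := by
      have h2 : 3 ≤ 3 / (8 * t) := by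
        rw [le_div_iff₀ (by positivity)]
        linarith
      have h3 : 1 / (16 * t) * 2 + 3 / (8 * t) = 1 / (2 * t) := by
        field_simp
        norm_num
      linarith
    have h4 : (2 * (⌈R / s⌉ : ℝ) + 1) ^ 2 ≤ (1 / (2 * t)) ^ 2 := by
      apply pow_le_pow_left₀ (by linarith) h1
    have h5 : (1 / (2 * t)) ^ 2 * (2 * j) ≤ m := by
      rw [div_pow, mul_pow, ht2]
      have : (1 : ℝ) ^ 2 / (2 ^ 2 * (j / m)) * (2 * j) = m / 2 := by
        field_simp
      rw [this]
      linarith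
    have h6 : (2 * (⌈R / s⌉ : ℝ) + 1) ^ 2 * (2 * j) ≤ m :=
      (mul_le_mul_of_nonneg_right h4 (by positivity)).trans h5
    exact_mod_cast h6
  have hrich := card_rich_ge Q p hspos (fun q hq => (mem_filter.1 hq).2) hQm hcell hRpos.le
  refine hrich.trans ?_
  gcongr 2 * ?_
  refine card_le_card fun q hq => ?_
  rw [mem_filter] at hq
  obtain ⟨hq, hq2⟩ := hq
  rw [hQ, mem_filter] at hq
  rw [mem_filter]
  refine ⟨hq.1, hq.2, ?_⟩
  refine nn_le (by positivity) (hq2.trans ?_)
  unfold cnt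
  refine card_le_card fun q' hq' => ?_
  rw [mem_filter] at hq'
  rw [mem_filter]
  refine ⟨(mem_filter.1 hq'.1).1, ?_⟩
  refine (norm_le_of_cell_eq hspos hq'.2).trans (le_of_eq ?_)
  rw [hs]
  ring

/-- **The packing lemma.** -/
theorem sum_inv_nn_le (S : Finset ℂ) {j m : ℕ} (hj : 2 ≤ j) (hjm : j ≤ m) :
    ∑ p ∈ S, (nn S m p)⁻¹ ≤ 512 * Real.sqrt (j / m) * ∑ p ∈ S, (nn S j p)⁻¹ := by
  have hjpos : 0 < (j : ℝ) := by
    have : 0 < j := by omega
    exact_mod_cast this
  have hmpos : 0 < (m : ℝ) := by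
    have : 0 < m := by omega
    exact_mod_cast this
  have hsumnn : 0 ≤ ∑ p ∈ S, (nn S j p)⁻¹ :=
    sum_nonneg fun p _ => inv_nonneg.2 (nn_nonneg _ _ _)
  rcases lt_or_ge S.card m with hmS | hmS
  · have : ∑ p ∈ S, (nn S m p)⁻¹ = 0 := by
      refine sum_eq_zero fun p _ => ?_
      rw [nn_eq_zero hmS, inv_zero]
    rw [this]
    positivity
  rcases lt_or_ge m (64 * j) with hm | hm
  · -- the trivial case
    have h1 : ∑ p ∈ S, (nn S m p)⁻¹ ≤ ∑ p ∈ S, (nn S j p)⁻¹ := by
      refine sum_le_sum fun p _ => ?_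
      exact inv_anti₀ (nn_pos hj (hjm.trans hmS)) (nn_mono hjm hmS)
    have h2 : 1 ≤ 512 * Real.sqrt (j / m) := by
      have : (1 / 512 : ℝ) ≤ Real.sqrt (j / m) := by
        refine Real.le_sqrt_of_sq_le ?_
        rw [le_div_iff₀ hmpos]
        have : (m : ℝ) < 64 * j := by exact_mod_cast hm
        nlinarith
      linarith
    calc ∑ p ∈ S, (nn S m p)⁻¹ ≤ 1 * ∑ p ∈ S, (nn S j p)⁻¹ := by rw [one_mul]; exact h1
      _ ≤ _ := mul_le_mul_of_nonneg_right h2 hsumnn
  · set t := Real.sqrt (j / m) with ht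
    have htpos : 0 < t := Real.sqrt_pos.2 (div_pos hjpos hmpos)
    have hjS : j ≤ S.card := hjm.trans hmS
    -- the inner sum
    have h1 : ∀ p ∈ S, (nn S m p)⁻¹ ≤ (2 / m) * ∑ q ∈ S,
        if ‖q - p‖ ≤ nn S m p then 32 * t * (nn S j q)⁻¹ else 0 := by
      intro p _
      have hRpos : 0 < nn S m p := nn_pos (by omega) hmS
      have hgood := card_good_ge S hj hm hmS p
      set G := S.filter fun q => ‖q - p‖ ≤ nn S m p ∧
        nn S j q ≤ 32 * Real.sqrt (j / m) * nn S m p with hG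
      have h2 : (G.card : ℝ) * (nn S m p)⁻¹ ≤ ∑ q ∈ S,
          if ‖q - p‖ ≤ nn S m p then 32 * t * (nn S j q)⁻¹ else 0 := by
        rw [← nsmul_eq_mul, ← sum_const]
        calc ∑ _q ∈ G, (nn S m p)⁻¹ ≤ ∑ q ∈ G,
              (if ‖q - p‖ ≤ nn S m p then 32 * t * (nn S j q)⁻¹ else 0) := by
              refine sum_le_sum fun q hq => ?_
              rw [hG, mem_filter] at hq
              rw [if_pos hq.2.1]
              have hjq : 0 < nn S j q := nn_pos hj hjS
              rw [← div_eq_mul_inv, le_div_iff₀ hjq, inv_mul_le_iff₀ hRpos, mul_comm]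
              rw [mul_comm] at hq
              exact le_trans hq.2.2 (le_of_eq (by ring))
          _ ≤ _ := by
              refine sum_le_sum_of_subset_of_nonneg (filter_subset _ _) fun q _ _ => ?_
              split_ifs
              · exact mul_nonneg (by positivity) (inv_nonneg.2 (nn_nonneg _ _ _))
              · exact le_rfl
      have h3 : (m : ℝ) ≤ 2 * G.card := by exact_mod_cast hgood
      calc (nn S m p)⁻¹ = (2 / m) * (m / 2 * (nn S m p)⁻¹) := by field_simp
        _ ≤ (2 / m) * (G.card * (nn S m p)⁻¹) := by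
            gcongr
            linarith
        _ ≤ _ := mul_le_mul_of_nonneg_left h2 (by positivity)
    calc ∑ p ∈ S, (nn S m p)⁻¹ ≤ ∑ p ∈ S, (2 / m) * ∑ q ∈ S,
          (if ‖q - p‖ ≤ nn S m p then 32 * t * (nn S j q)⁻¹ else 0) := sum_le_sum h1
      _ = (2 / m) * ∑ q ∈ S, ∑ p ∈ S,
          (if ‖q - p‖ ≤ nn S m p then 32 * t * (nn S j q)⁻¹ else 0) := by
          rw [← mul_sum, sum_comm]
      _ = (2 / m) * ∑ q ∈ S, ((S.filter fun p => ‖q - p‖ ≤ nn S m p).card : ℝ) *
          (32 * t * (nn S j q)⁻¹) := by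
          congr 1
          refine sum_congr rfl fun q _ => ?_
          rw [← sum_filter, sum_const, nsmul_eq_mul]
      _ ≤ (2 / m) * ∑ q ∈ S, (8 * m) * (32 * t * (nn S j q)⁻¹) := by
          gcongr with q _
          · exact mul_nonneg (by positivity) (inv_nonneg.2 (nn_nonneg _ _ _))
          · exact_mod_cast card_indegree_le S (by omega) q
      _ = 512 * t * ∑ p ∈ S, (nn S j p)⁻¹ := by
          rw [← mul_sum, ← mul_sum]
          field_simp
          ring

end SepDist
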